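import Pool.Agent.Helper37.SKFinal

namespace Pool.Agent.Results.MP_5b0e2c_al.UrysohnSharply

open Pool.Agent.Helper37.SK

/-- The rational Urysohn space exists and has, for `k = 2` and for `k = 3`, a group of isometries
which is structurally sharply `k`-transitive. -/
theorem result :
    (∃ (U : Type) (_ : MetricSpace U), IsRationalUrysohn U) ∧
    ∀ (U : Type) [MetricSpace U], IsRationalUrysohn U → ∀ k : ℕ, k = 2 ∨ k = 3 →
      ∃ G : Subgroup (U ≃ᵢ U), SharplyTransitive U k G :=
  main

end Pool.Agent.Results.MP_5b0e2c_al.UrysohnSharply
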